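import Mathlib

namespace Pool.Agent.Results.MP_1a5b88_nt.Q1

open Finset PowerSeries

/-- `t_m(n)`: the coefficient of `x^n` in `∏_{i ≥ 0} (1 - x^(2^i))^m`; the factors with `i > n`
are `1` modulo `x^(n+1)`, so the product is taken over `i ≤ n`. -/
noncomputable def t (m n : ℕ) : ℤ :=
  coeff n (∏ i ∈ range (n + 1), (1 - X ^ (2 ^ i) : ℤ⟦X⟧) ^ m)

def step (s : ℕ) (l : List ℤ) : List ℤ := List.zipWith (· - ·) l (List.replicate s 0 ++ l)

def Rep (f : ℤ⟦X⟧) (l : List ℤ) : Prop := ∀ n, n < l.length → coeff n f = l.getD n 0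

lemma step_len (s : ℕ) (l : List ℤ) : (step s l).length = l.length := by simp [step]

lemma rep_step {f : ℤ⟦X⟧} {l : List ℤ} (s : ℕ) (h : Rep f l) :
    Rep (f * (1 - X ^ s)) (step s l) := by
  intro n hn
  rw [step_len] at hn
  have hn' : n < (step s l).length := by rw [step_len]; exact hn
  rw [mul_sub, mul_one, map_sub, coeff_mul_X_pow', h n hn, List.getD_eq_getElem _ _ hn,
    List.getD_eq_getElem _ _ hn']
  simp only [step, List.getElem_zipWith]
  congr 1
  split_ifs with hs
  · rw [h (n - s) (by omega), List.getD_eq_getElem _ _ (by omega), List.getElem_append_right (by simpa using hs)]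
    simp
  · rw [List.getElem_append_left (by simpa using hs)]
    simp

lemma rep_iter {f : ℤ⟦X⟧} {l : List ℤ} (s k : ℕ) (h : Rep f l) :
    Rep (f * (1 - X ^ s) ^ k) ((step s)^[k] l) := by
  induction k generalizing f l with
  | zero => simpa using h
  | succ k ih =>
    have := ih (rep_step s h)
    rw [Function.iterate_succ_apply, pow_succ', ← mul_assoc]
    exact this

lemma iter_len (s k : ℕ) (l : List ℤ) : ((step s)^[k] l).length = l.length := by
  induction k generalizing l with
  | zero => rfl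
  | succ k ih => rw [Function.iterate_succ_apply, ih, step_len]

def go : ℕ → List ℤ
  | 0 => 1 :: List.replicate 511 0
  | i + 1 => (step (2 ^ i))^[17] (go i)

lemma go_len (i : ℕ) : (go i).length = 512 := by
  induction i with
  | zero => rw [go, List.length_cons, List.length_replicate]
  | succ i ih => rw [go, iter_len, ih]

lemma rep_go (j : ℕ) : Rep (∏ i ∈ range j, (1 - X ^ (2 ^ i) : ℤ⟦X⟧) ^ 17) (go j) := by
  induction j with
  | zero =>
    intro n hn
    rw [go_len] at hn
    rw [prod_range_zero, coeff_one, go]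
    cases n with
    | zero => rw [List.getD_cons_zero, if_pos rfl]
    | succ n =>
      rw [List.getD_cons_succ, List.getD_eq_getElem _ _ (by rw [List.length_replicate]; omega),
        List.getElem_replicate, if_neg (by omega)]
  | succ j ih => rw [prod_range_succ, go]; exact rep_iter _ _ ih

lemma rep_big {f : ℤ⟦X⟧} {l : List ℤ} (s k : ℕ) (hs : l.length ≤ s) (h : Rep f l) :
    Rep (f * (1 - X ^ s) ^ k) l := by
  induction k generalizing f with
  | zero => simpa using h
  | succ k ih =>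
    rw [pow_succ', ← mul_assoc]
    apply ih
    intro n hn
    rw [mul_sub, mul_one, map_sub, coeff_mul_X_pow', if_neg (by omega), sub_zero, h n hn]

lemma rep_all (j : ℕ) : Rep (∏ i ∈ range (9 + j), (1 - X ^ (2 ^ i) : ℤ⟦X⟧) ^ 17) (go 9) := by
  induction j with
  | zero => exact rep_go 9
  | succ j ih =>
    rw [← add_assoc, prod_range_succ]
    apply rep_big _ _ _ ih
    rw [go_len, pow_add]
    have : 1 ≤ 2 ^ j := Nat.one_le_two_pow
    omega

lemma key : ¬ (2 : ℤ) ^ 19 ∣ (go 9).getD 496 0 ∧ (2 : ℤ) ^ 19 ∣ (go 9).getD 504 0 := by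
  decide +kernel

lemma t496 : t 17 496 = (go 9).getD 496 0 := rep_all 488 496 (by rw [go_len]; norm_num)

lemma t504 : t 17 504 = (go 9).getD 504 0 := rep_all 496 504 (by rw [go_len]; norm_num)

theorem result : ¬ ∀ k : ℕ, 2 ≤ k → ∃ A : ℕ → ℕ, StrictMono A ∧ A 0 = 0 ∧
    ∀ n j : ℕ, j < 2 ^ k →
      emultiplicity (2 : ℤ) (t (2 ^ k + 1) (2 ^ k * n + j)) = (A (padicValNat 2 (n + 1)) : ℕ∞) := by
  intro h
  obtain ⟨A, -, -, hA⟩ := h 4 (by norm_num)
  have h0 := hA 31 0 (by norm_num)
  have h8 := hA 31 8 (by norm_num)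
  have e0 : t (2 ^ 4 + 1) (2 ^ 4 * 31 + 0) = t 17 496 := by norm_num
  have e8 : t (2 ^ 4 + 1) (2 ^ 4 * 31 + 8) = t 17 504 := by norm_num
  rw [e0, t496] at h0
  rw [e8, t504, ← h0] at h8
  have k1 := key.1
  have k2 := key.2
  rw [pow_dvd_iff_le_emultiplicity] at k1 k2
  rw [h8] at k2
  exact k1 k2

end Pool.Agent.Results.MP_1a5b88_nt.Q1
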